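import Pool.Agent.Q145.LY.Su
import Pool.Agent.Q285.LY.JG
import Pool.Agent.Q186.LY.CBJT

set_option autoImplicit false
set_option maxHeartbeats 4000000

/-!
# The threshold for simultaneous prime values of quadratic polynomials, for almost all long systems

Let `G_1, ..., G_K` be integer quadratic polynomials, for instance `G_i = x ^ 2 + 5 Y T_i`, and let `T_i` and `H_i` be the ranges
of the coefficients of `n` and `1`: all the polynomials `G_i + t x`, `1 ≤ t ≤ T_i`, have the size `H_i` on `(Y, 2 Y]`, where `X ≤ H_i ≤ 2 ^ R X`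
and `H_i ≤ 2 ^ R Y T_i`, and the prime factors of the leading coefficients are at most `R`. For `1 ≤ t_i ≤ T_i` and `1 ≤ s_i ≤ H_i` let `N` be the
number of `Y < n ≤ 2 Y` for which all the `G_i(n) + t_i n + s_i` are prime. The formula of Hardy-Littlewood and Bateman-Horn predicts
`N ~ 𝔖 Y / ∏ log H_i`, so primes can be expected only for `Y` above `(log X) ^ K`. We prove that this is the threshold:

* `Y ≤ (log X) ^ ((1 - δ) K)`, `K ≤ log X / log log X`: for all `t` and almost all admissible `s` there is no such `n`;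
* `Y ≥ (log X) ^ ((1 + δ) K + C) exp (C R)` (`C = C(δ)`): for almost all `t` and almost all admissible `s` the formula holds, with the singular series
  over the primes `p ≤ w`, for any `w` between `log X` and `X ^ (1 / 20)`; for `K, R ≤ A log log X` and all large `X`,
  for `K, R ≤ c log X / log log X` and arbitrarily large `X`, and for `K, R ≤ c log X / log log X` and all large `X` unless there is an exceptional zero.
-/

namespace Pool.Agent.Results.MP_7169d5_nt.QuadraticThreshold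

open Finset Filter Polynomial

open scoped Classical

/-- The polynomials `G_i + t_i x`. -/
noncomputable def lines {K : ℕ} (G : Fin K → ℤ[X]) (t : Fin K → ℕ) : Fin K → ℤ[X] := fun i => G i + C (t i : ℤ) * X

/-- For a prime `p`: the number of classes `n` modulo `p` for which `p` divides one of the `q_i(n) + s_i`. -/
def classes {K : ℕ} (q : Fin K → ℤ[X]) (s : Fin K → ℕ) (p : ℕ) : ℕ :=
  ((range p).filter fun n : ℕ => ∃ i, (p : ℤ) ∣ (q i).eval (n : ℤ) + s i).card

/-- The product of the `q_i + s_i` has no fixed prime divisor. -/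
def Admissible {K : ℕ} (q : Fin K → ℤ[X]) (s : Fin K → ℕ) : Prop := ∀ p : ℕ, p.Prime → classes q s p < p

/-- The product of Bateman and Horn of the system `q_i + s_i`, for the primes up to `w`. -/
noncomputable def partialSeries {K : ℕ} (q : Fin K → ℤ[X]) (s : Fin K → ℕ) (w : ℕ) : ℝ :=
  ∏ p ∈ (Icc 1 w).filter Nat.Prime, (1 - (classes q s p : ℝ) / p) / (1 - 1 / (p : ℝ)) ^ K

/-- The number of integers `Y < n ≤ 2 Y` for which all the `q_i(n) + s_i` are prime. -/
def count {K : ℕ} (Y : ℕ) (q : Fin K → ℤ[X]) (s : Fin K → ℕ) : ℕ :=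
  ((Ioc Y (2 * Y)).filter fun n : ℕ => ∀ i, ((q i).eval (n : ℤ) + s i).toNat.Prime).card

/-- The admissible `s` with `1 ≤ s_i ≤ H_i`. -/
noncomputable def constants {K : ℕ} (H : Fin K → ℕ) (q : Fin K → ℤ[X]) : Finset (Fin K → ℕ) :=
  (Fintype.piFinset fun i => Icc 1 (H i)).filter (Admissible q)

/-- Quadratic polynomials whose leading coefficients have all prime factors at most `R`, with `5 H_i / 4 < q_i(n) ≤ 2 H_i` for `Y < n ≤ 2 Y`, where
`X ≤ H_i ≤ 2 ^ R X`. -/
structure Shapes (R Y X : ℕ) {K : ℕ} (H : Fin K → ℕ) (q : Fin K → ℤ[X]) : Prop where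
  deg : ∀ i, (q i).natDegree = 2
  lead : ∀ i, ∀ p : ℕ, p.Prime → (p : ℤ) ∣ (q i).leadingCoeff → p ≤ R
  scale : ∀ i, X ≤ H i ∧ H i ≤ 2 ^ R * X
  val : ∀ i, ∀ n ∈ Ioc Y (2 * Y), 5 * (H i : ℤ) < 4 * (q i).eval (n : ℤ) ∧ (q i).eval (n : ℤ) ≤ 2 * H i

/-- The families `G_i + t_i x`, `1 ≤ t_i ≤ T_i`: quadratic, leading coefficients with all prime factors at most `R`,
`5 H_i / 4 < G_i(n) + t n ≤ 2 H_i` for `Y < n ≤ 2 Y` and `1 ≤ t ≤ T_i`, where `X ≤ H_i ≤ 2 ^ R X` and `H_i ≤ 2 ^ R Y T_i`. -/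
structure Families (R Y X : ℕ) {K : ℕ} (H T : Fin K → ℕ) (G : Fin K → ℤ[X]) : Prop where
  deg : ∀ i, (G i).natDegree = 2
  lead : ∀ i, ∀ p : ℕ, p.Prime → (p : ℤ) ∣ (G i).leadingCoeff → p ≤ R
  scale : ∀ i, X ≤ H i ∧ H i ≤ 2 ^ R * X
  range : ∀ i, 1 ≤ T i ∧ H i ≤ 2 ^ R * Y * T i
  val : ∀ i, ∀ t ∈ Icc 1 (T i), ∀ n ∈ Ioc Y (2 * Y),
    5 * (H i : ℤ) < 4 * ((G i).eval (n : ℤ) + t * n) ∧ (G i).eval (n : ℤ) + t * n ≤ 2 * H i

/-- `count = 𝔖 Y / ∏ log H_i`, with a relative error at most `ε`, for all but a proportion at most `ε` of the admissible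
`s`; `𝔖` is the product over the primes up to `w`. -/
def Formula {K : ℕ} (Y w : ℕ) (H : Fin K → ℕ) (q : Fin K → ℤ[X]) (ε : ℝ) : Prop :=
  (((constants H q).filter fun s =>
    ¬ (|count Y q s * ∏ i, Real.log (H i) - partialSeries q s w * Y| ≤ ε * (partialSeries q s w * Y))).card : ℝ) ≤
      ε * (constants H q).card

/-- Above the threshold: for all families with `K ≤ Q`, `R ≤ Q` and all `Y ≤ X` with `Y ≥ (log X) ^ ((1 + δ) K + C) exp (C R)` the formula holds
for all but a proportion at most `ε` of the `t`. -/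
def Above (δ C : ℝ) (X Q : ℕ) (ε : ℝ) : Prop := ∀ K R Y w : ℕ, K ≤ Q → R ≤ Q →
  Real.log X ^ ((1 + δ) * K + C) * Real.exp (C * R) ≤ Y → Y ≤ X → Real.log X ≤ w → (w : ℝ) ^ 20 ≤ X →
  ∀ (H T : Fin K → ℕ) (G : Fin K → ℤ[X]), Families R Y X H T G →
    (((Fintype.piFinset fun i => Icc 1 (T i)).filter fun t => ¬ Formula Y w H (lines G t) ε).card : ℝ) ≤
      ε * (Fintype.piFinset fun i => Icc 1 (T i)).card

/-- Below the threshold: for all `1 ≤ K ≤ log X / log log X`, `R ≤ K + log log X`, `1 ≤ Y ≤ (log X) ^ ((1 - δ) K)` and ALL quadratic polynomials `q_i` with these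
sizes there is no `n` at all, for all but a proportion at most `ε` of the admissible `s`. -/
def Below (δ : ℝ) (X : ℕ) (ε : ℝ) : Prop := ∀ K R Y : ℕ, 1 ≤ K → (K : ℝ) ≤ Real.log X / Real.log (Real.log X) → (R : ℝ) ≤ K + Real.log (Real.log X) →
  1 ≤ Y → (Y : ℝ) ≤ Real.log X ^ ((1 - δ) * K) → ∀ (H : Fin K → ℕ) (q : Fin K → ℤ[X]), Shapes R Y X H q →
    (((constants H q).filter fun s => count Y q s ≠ 0).card : ℝ) ≤ ε * (constants H q).card

/-- There is no exceptional zero at the scale `X`: the real zeros `β` of the primitive quadratic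
characters of conductor `1 < r ≤ exp (log X / log log X)` are at most `1 - C log log X / log X`. -/
def NoExceptionalZero (C : ℝ) (X : ℕ) : Prop :=
  ∀ (r : ℕ) [NeZero r], 1 < r → (r : ℝ) ≤ Real.exp (Real.log X / Real.log (Real.log X)) →
    ∀ χ : DirichletCharacter ℂ r, χ.IsPrimitive → χ ^ 2 = 1 → ∀ β : ℝ, χ.LFunction β = 0 →
      β ≤ 1 - C * (Real.log (Real.log X) / Real.log X)

open Pool.Agent.Q145.LQ Pool.Agent.Q145.LE Pool.Agent.Q145.LY

theorem deg_line {G : ℤ[X]} (h : G.natDegree = 2) (t : ℤ) : (G + C t * X).natDegree = 2 ∧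
    (G + C t * X).leadingCoeff = G.leadingCoeff := by
  have h0 : (C t * X : ℤ[X]).natDegree ≤ 1 := by compute_degree
  have h1 : (C t * X : ℤ[X]).natDegree < G.natDegree := by omega
  have h2 : (C t * X : ℤ[X]).degree < G.degree := degree_lt_degree h1
  exact ⟨(natDegree_add_eq_left_of_natDegree_lt h1).trans h, leadingCoeff_add_of_degree_lt' h2⟩

theorem two_pow_le (R : ℕ) : 2 ^ R ≤ Uz R := Nat.pow_le_pow_right (by norm_num) (by omega)

theorem sys_shapes {R Y X K : ℕ} {H : Fin K → ℕ} {q : Fin K → ℤ[X]} (h : Shapes R Y X H q) : SysE 2 R Y X H q where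
  deg := fun i => by
    rw [h.deg i]
    exact ⟨by norm_num, le_rfl⟩
  lead := fun i p hp hR hd => absurd (h.lead i p hp hd) (by omega)
  scale := fun i => ⟨(h.scale i).1, (h.scale i).2.trans (Nat.mul_le_mul_right _ (two_pow_le R))⟩
  val := h.val

theorem sys_of {R Y X K : ℕ} {H T : Fin K → ℕ} {G : Fin K → ℤ[X]} (h : Families R Y X H T G) : SysY 2 R Y X H T G where
  sys := fun t ht => by
    apply sys_shapes
    refine ⟨fun i => ?_, fun i => ?_, h.scale, fun i n hn => ?_⟩
    · exact (deg_line (h.deg i) (t i : ℤ)).1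
    · have h1 := (deg_line (h.deg i) (t i : ℤ)).2
      unfold qt
      rw [h1]
      exact h.lead i
    · rw [Fintype.mem_piFinset] at ht
      have h1 := h.val i (t i) (ht i) n hn
      unfold qt
      simp only [eval_add, eval_mul, eval_C, eval_X]
      exact h1
  pos := fun i => (h.range i).1
  rng := fun i => (h.range i).2

theorem count_eq {Y K : ℕ} {q : Fin K → ℤ[X]} (h0 : ∀ i, ∀ n ∈ Ioc Y (2 * Y), 0 ≤ (q i).eval (n : ℤ)) (s : Fin K → ℕ) : count Y q s = cntQ Y q s := by
  unfold count cntQ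
  congr 1
  apply filter_congr
  intro n hn
  refine forall_congr' fun i => ?_
  have h1 := h0 i n hn
  have e : ((q i).eval (n : ℤ) + s i).toNat = vq (q i) n + s i := by
    unfold vq
    omega
  rw [e]

theorem log_pos_of {X : ℕ} (hl : 1 ≤ Real.log (Real.log X)) : 0 < Real.log X := by
  rcases (Real.log_natCast_nonneg X).lt_or_eq with h | h
  · exact h
  · rw [← h] at hl
    simp at hl
    linarith

theorem above_of {δ C : ℝ} {X Q : ℕ} {ε : ℝ} (hl : 1 ≤ Real.log (Real.log X)) (h : PYD 2 δ C X (12 * (Q + 1)) ε) : Above δ C X Q ε := by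
  intro K R Y w hK hR hY hYX hw1 hw2 H T G hF
  have hL0 := log_pos_of hl
  have hS := sys_of hF
  have h1 := h Y K R w H T G (by
    have h2 := Real.log_le_log (by positivity) hY
    rw [Real.log_mul (Real.rpow_pos_of_pos hL0 _).ne' (Real.exp_pos _).ne', Real.log_rpow hL0, Real.log_exp] at h2
    exact h2) hYX (by omega) (by omega) hS hw1 hw2
  have hcard : ((Fintype.piFinset fun i => Icc 1 (T i)).card : ℝ) = ∏ i, (T i : ℝ) := by
    rw [Fintype.card_piFinset]
    push_cast
    refine prod_congr rfl fun i _ => ?_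
    rw [Nat.card_Icc, Nat.add_sub_cancel]
  rw [hcard]
  refine le_trans ?_ h1
  have hsub : ((Fintype.piFinset fun i => Icc 1 (T i)).filter fun t => ¬ Formula Y w H (lines G t) ε) ⊆
      ((Fintype.piFinset fun i => Icc 1 (T i)).filter fun t => ¬ HLQ Y H (qt G t) (fun s => singPQ (qt G t) s w) ε) := by
    intro t ht
    rw [mem_filter] at ht ⊢
    refine ⟨ht.1, fun hH => ht.2 ?_⟩
    unfold HLQ at hH
    unfold Formula
    have h2 : ∀ s, count Y (lines G t) s = cntQ Y (qt G t) s := count_eq fun i n hn => (hS.sys t ht.1).nonneg i hn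
    simp only [h2]
    exact hH
  exact_mod_cast card_le_card hsub

theorem below_of {δ : ℝ} {X : ℕ} {ε : ℝ} (hl : 1 ≤ Real.log (Real.log X)) (h : PZY 2 δ X ε) : Below δ X ε := by
  intro K R Y hK1 hKL hR hY1 hY H q hS
  have hL0 := log_pos_of hl
  have hY0 : (0 : ℝ) < Y := by exact_mod_cast hY1
  have hSE := sys_shapes hS
  have h1 := h R Y K H q hK1 hKL hY1 (by
    have h2 := Real.log_le_log hY0 hY
    rw [Real.log_rpow hL0] at h2
    linarith) (by
      have : (0 : ℝ) ≤ K := Nat.cast_nonneg _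
      linarith) hSE
  have h2 : ∀ s, count Y q s = cntQ Y q s := count_eq fun i n hn => hSE.nonneg i hn
  simp only [h2]
  exact h1

/-- the example: monic polynomials `x ^ 2 + t x + (5 Y T + s)` -/
theorem example1 (R Y T K : ℕ) (hY : 1 ≤ Y) (hT : 4 * Y ≤ T) (hR : 2 ≤ R) :
    Families R Y (4 * Y * T) (fun _ : Fin K => 4 * Y * T) (fun _ => T) (fun _ => X ^ 2 + C (5 * (Y : ℤ) * T)) where
  deg := fun _ => natDegree_X_pow_add_C
  lead := fun _ p hp hd => by
    rw [leadingCoeff_X_pow_add_C (by norm_num)] at hd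
    exact absurd (Int.eq_one_of_dvd_one (by positivity) hd) (by exact_mod_cast hp.one_lt.ne')
  scale := fun _ => ⟨le_rfl, Nat.le_mul_of_pos_left _ (by positivity)⟩
  range := fun _ => ⟨by omega, by
    have : 4 ≤ 2 ^ R := le_trans (by norm_num : 4 ≤ 2 ^ 2) (Nat.pow_le_pow_right (by norm_num) hR)
    gcongr⟩
  val := fun _ t ht n hn => by
    rw [mem_Icc] at ht
    rw [mem_Ioc] at hn
    simp only [eval_add, eval_pow, eval_X, eval_C]
    have hY0 : (0 : ℤ) < (Y : ℤ) := by exact_mod_cast hY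
    have hn0 : (0 : ℤ) < n := by exact_mod_cast (show 0 < n by omega)
    have ht1 : (t : ℤ) ≤ T := by exact_mod_cast ht.2
    have ht0 : (0 : ℤ) ≤ t := by positivity
    have hn2 : (n : ℤ) ≤ 2 * Y := by exact_mod_cast hn.2
    have hT' : 4 * (Y : ℤ) ≤ T := by exact_mod_cast hT
    have h1 : (n : ℤ) ^ 2 ≤ Y * T := by
      calc (n : ℤ) ^ 2 ≤ (2 * Y) ^ 2 := pow_le_pow_left₀ hn0.le hn2 _
        _ = Y * (4 * Y) := by ring
        _ ≤ Y * T := by gcongr
    have h2 : (t : ℤ) * n ≤ T * (2 * Y) := mul_le_mul ht1 hn2 hn0.le (by positivity)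
    have h3 : (0 : ℤ) < (n : ℤ) ^ 2 := by positivity
    have h4 : (0 : ℤ) ≤ t * n := by positivity
    push_cast
    constructor <;> nlinarith

/-- **Theorem.** (0) Example: `x ^ 2 + 5 Y T`, `X = H = 4 Y T`, `4 Y ≤ T`. Let `0 < δ ≤ 1`. (1) For every large `X` there are no simultaneous prime values
below the threshold, for all systems of quadratic polynomials and almost all admissible constants. There is `C₁ > 0` such that, with `Above = Above δ C₁`:
(2) for every large `X` the formula holds above the threshold for all `K, R ≤ A log log X`; (3) for arbitrarily large `X` for all `K, R ≤ c log X / log log X`;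
(4) for every large `X` for all `K, R ≤ c log X / log log X`, unless there is an exceptional zero at the scale `X`. -/
theorem result :
    (∀ R Y T K : ℕ, 1 ≤ Y → 4 * Y ≤ T → 2 ≤ R →
      Families R Y (4 * Y * T) (fun _ : Fin K => 4 * Y * T) (fun _ => T) (fun _ => X ^ 2 + C (5 * (Y : ℤ) * T))) ∧
    (∀ δ : ℝ, 0 < δ → δ ≤ 1 →
      (∀ ε : ℝ, 0 < ε → ∀ᶠ X : ℕ in atTop, Below δ X ε) ∧
      ∃ C₁ : ℝ, 0 < C₁ ∧
      (∀ A ε : ℝ, 0 < ε → ∀ᶠ X : ℕ in atTop, ∀ Q : ℕ, (Q : ℝ) ≤ A * Real.log (Real.log X) → Above δ C₁ X Q ε) ∧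
      (∃ c : ℝ, 0 < c ∧ ∀ ε : ℝ, 0 < ε → ∃ᶠ X : ℕ in atTop, ∀ Q : ℕ, (Q : ℝ) ≤ c * (Real.log X / Real.log (Real.log X)) → Above δ C₁ X Q ε) ∧
      (∃ c C : ℝ, 0 < c ∧ 0 < C ∧ ∀ ε : ℝ, 0 < ε → ∀ᶠ X : ℕ in atTop, NoExceptionalZero C X →
        ∀ Q : ℕ, (Q : ℝ) ≤ c * (Real.log X / Real.log (Real.log X)) → Above δ C₁ X Q ε)) := by
  refine ⟨fun R Y T K hY hT hR => example1 R Y T K hY hT hR, ?_⟩
  intro δ hδ0 hδ1
  have hev := Pool.Agent.Q145.SZ.ll_tendsto.eventually_ge_atTop 1
  have hjg := Pool.Agent.Q285.LY.jg Pool.Agent.Q145.LY.cb Pool.Agent.Q145.LY.jt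
  refine ⟨fun ε hε => ?_, ?_⟩
  · filter_upwards [lowY 2 δ ε hδ0 hε, hev] with X h1 h2
    exact below_of h2 h1
  obtain ⟨C₁, hC₁, m1, m2, m3⟩ := mainY hjg 2 (by norm_num) hδ0 hδ1
  have hLL : Tendsto (fun X : ℕ => Real.log X / Real.log (Real.log X)) atTop atTop := by
    have h1 : Tendsto (fun x : ℝ => x / Real.log x) atTop atTop := by
      have h2 := Real.isLittleO_log_id_atTop
      have h3 : Tendsto (fun x : ℝ => Real.log x / x) atTop (nhds 0) := h2.tendsto_div_nhds_zero
      have h4 : ∀ᶠ x : ℝ in atTop, 0 < Real.log x / x := by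
        filter_upwards [eventually_gt_atTop 1] with x hx
        exact div_pos (Real.log_pos hx) (by linarith)
      have h5 : Tendsto (fun x : ℝ => (Real.log x / x)⁻¹) atTop atTop :=
        tendsto_inv_nhdsGT_zero.comp (tendsto_nhdsWithin_iff.2 ⟨h3, h4⟩)
      refine h5.congr fun x => ?_
      rw [inv_div]
    exact h1.comp Pool.Agent.Q145.SZ.log_tendsto
  refine ⟨C₁, hC₁, ?_, ?_, ?_⟩
  · intro A ε hε
    filter_upwards [m1 (12 * |A| + 12) ε hε, hev] with X h hX Q hQ
    apply above_of hX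
    apply h
    have h1 : A * Real.log (Real.log X) ≤ |A| * Real.log (Real.log X) := mul_le_mul_of_nonneg_right (le_abs_self A) (by linarith)
    push_cast
    nlinarith
  · obtain ⟨c, hc, h⟩ := m2
    refine ⟨c / 24, by positivity, fun ε hε => ?_⟩
    refine ((h ε hε).and_eventually ((hLL.eventually_ge_atTop (24 / c)).and hev)).mono ?_
    rintro X ⟨h1, h2, h3⟩ Q hQ
    apply above_of h3
    apply h1
    rw [div_le_iff₀ hc] at h2
    push_cast
    linarith
  · obtain ⟨c, C, hc, hC, h⟩ := m3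
    refine ⟨c / 24, C, by positivity, hC, fun ε hε => ?_⟩
    filter_upwards [h ε hε, hLL.eventually_ge_atTop (24 / c), hev] with X h1 h2 h3 hne Q hQ
    apply above_of h3
    apply h1 hne
    rw [div_le_iff₀ hc] at h2
    push_cast
    linarith

end Pool.Agent.Results.MP_7169d5_nt.QuadraticThreshold
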