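import Pool.Agent.Q253.Cov.QuadT

/-!
# One thin set of prime factors for all quadratic polynomials, all classes and all short intervals

For every `D` there is ONE set `Q` of primes with `O(log ^ (D + 3) x)` elements up to `x` such that for EVERY quadratic polynomial `f`
without fixed prime divisor (so for `m ^ 2 + 1`), all large `X`, EVERY modulus `q`, EVERY class `v` modulo `q` with `f v` prime to `q` and
EVERY interval of `H ≥ X ^ (3/4)` consecutive members `m = q j + v ≤ X` of the class, a positive proportion of the expected number of the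
`f m` are primes, or products of two primes `> H log ^ D X`, or `q₁` times a number with at most two prime factors for ONE `q₁ ∈ Q`.

Libraries (starting files): weighted sieve `Y882.KW`, `Y882.SI.mer_quad` (Mertens for the roots), `W123.RU.Poly.V_bounds`
(sieve product), `W378.DC.MP` (Mertens).
-/

set_option autoImplicit false

namespace Pool.Agent.Results.MP_7169d5_nt.ThinFactorsEverywhere

open Finset
open Pool.Agent.Q253.Cov (QP QP_eval QC QC_eval CC vl quadC_thin)

/-- `|a n ^ 2 + b n + c|` -/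
def value (a b c : ℤ) (n : ℕ) : ℕ := (a * (n : ℤ) ^ 2 + b * n + c).natAbs

open Classical in
/-- the number of the `j` with `A < j ≤ A + H` and `P j` -/
noncomputable def count (A H : ℕ) (P : ℕ → Prop) : ℕ := ((Ioc A (A + H)).filter P).card

/-- `N` is `q` times a number `m ≥ 2` with at most two prime factors (with multiplicity), all `≥ q` -/
def Times (q N : ℕ) : Prop := ∃ m : ℕ, 2 ≤ m ∧ N = q * m ∧ m.primeFactorsList.length ≤ 2 ∧ ∀ p : ℕ, p.Prime → p ∣ m → q ≤ p

/-- **One thin set of prime factors.** For every `D` there are `C > 0` and a set `Q` of primes with at most `C log ^ (D + 3) x` elements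
up to `x` (`x ≥ 2`) such that for all integers `a > 0`, `b`, `c`, `b ^ 2 - 4 a c` no square, no prime dividing all values of
`f = a n ^ 2 + b n + c`, there are `δ > 0` and `X₀` such that for all `X ≥ X₀`, `q ≥ 1`, `v` with `f v` prime to `q` and all intervals
`(A, A + H]` with `q (A + H) + v ≤ X` and `H ≥ X ^ (3/4)`: for at least `δ H / log X` of the `j` of `(A, A + H]` the number
`|f (q j + v)|` is prime, or for at least `δ H / log X` of them it is a product of two primes `> H log ^ D X`, or there is `q₁ ∈ Q`,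
`q₁ ≥ X ^ (3/20)`, such that for at least `δ H / (q₁ log X)` of them it is `q₁` times a number with one or two prime factors, all
`≥ q₁`. -/
theorem result : ∀ D : ℕ, ∃ C : ℝ, 0 < C ∧ ∃ Q : Set ℕ, (∀ q ∈ Q, q.Prime) ∧
    (∀ x : ℕ, 2 ≤ x → {q ∈ Q | q ≤ x}.Finite ∧ ({q ∈ Q | q ≤ x}.ncard : ℝ) ≤ C * Real.log x ^ (D + 3)) ∧
    ∀ a b c : ℤ, 0 < a → ¬ IsSquare (b ^ 2 - 4 * a * c) → (∀ p : ℕ, p.Prime → ∃ n : ℕ, ¬ p ∣ value a b c n) →
      ∃ δ : ℝ, 0 < δ ∧ ∃ X₀ : ℕ, ∀ X : ℕ, X₀ ≤ X → ∀ q v A H : ℕ, 1 ≤ q → Nat.Coprime (value a b c v) q →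
        q * (A + H) + v ≤ X → (X : ℝ) ^ (3 / 4 : ℝ) ≤ H →
        δ * (H / Real.log X) ≤ count A H (fun j => (value a b c (q * j + v)).Prime) ∨
        δ * (H / Real.log X) ≤ count A H (fun j => ∃ p₁ p₂ : ℕ, p₁.Prime ∧ p₂.Prime ∧ value a b c (q * j + v) = p₁ * p₂ ∧
          H * Real.log X ^ D < p₁ ∧ H * Real.log X ^ D < p₂) ∨
        ∃ q₁ ∈ Q, (X : ℝ) ^ (3 / 20 : ℝ) ≤ q₁ ∧
          δ * (H / (q₁ * Real.log X)) ≤ count A H (fun j => Times q₁ (value a b c (q * j + v))) := by
  classical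
  intro D
  obtain ⟨C, hC, Q, hQ, hQc, H1⟩ := quadC_thin D
  refine ⟨C, hC, Q, hQ, hQc, ?_⟩
  intro a b c ha hD hadm
  have hg : ∀ q : ℕ, q.Prime → ¬ ((q : ℤ) ∣ a ∧ (q : ℤ) ∣ b ∧ (q : ℤ) ∣ c) := by
    rintro q hq ⟨h1, h2, h3⟩
    obtain ⟨n, hn⟩ := hadm q hq
    apply hn
    unfold value
    rw [← Int.natCast_dvd]
    exact dvd_add (dvd_add (h1.mul_right _) (h2.mul_right _)) h3
  have hp : ¬ ((2 : ℤ) ∣ a + b ∧ (2 : ℤ) ∣ c) := by
    rintro ⟨h1, h2⟩
    obtain ⟨n, hn⟩ := hadm 2 Nat.prime_two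
    apply hn
    unfold value
    rw [← Int.natCast_dvd]
    push_cast
    rcases Int.even_or_odd (n : ℤ) with ⟨u, hu⟩ | ⟨u, hu⟩
    · have e : a * (n : ℤ) ^ 2 + b * n + c = c + 2 * (2 * a * u ^ 2 + b * u) := by
        rw [hu]
        ring
      rw [e]
      exact dvd_add h2 (Dvd.intro _ rfl)
    · have e : a * (n : ℤ) ^ 2 + b * n + c = c + (a + b) + 2 * (2 * a * u ^ 2 + 2 * a * u + b * u) := by
        rw [hu]
        ring
      rw [e]
      exact dvd_add (dvd_add h2 h1) (Dvd.intro _ rfl)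
  obtain ⟨δ, hδ, X₀, H2⟩ := H1 a b c ha hg hp hD
  refine ⟨δ, hδ, X₀, ?_⟩
  intro X hX q v A H hq hv hqX hH
  have hval : ∀ j : ℕ, vl a b c q v j = value a b c (q * j + v) := by
    intro j
    unfold vl value
    rw [QC_eval, QP_eval]
  have hCC : CC a b c q v := by
    intro p hpp hpq hd
    rw [QP_eval, Int.natCast_dvd] at hd
    have h1 : p ∣ Nat.gcd (value a b c v) q := Nat.dvd_gcd hd hpq
    rw [hv] at h1
    exact hpp.one_lt.ne' (Nat.dvd_one.1 h1)
  have h3 := H2 X hX q v A H hq hCC hqX hH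
  simp only [hval] at h3
  unfold count Times
  convert h3

end Pool.Agent.Results.MP_7169d5_nt.ThinFactorsEverywhere
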