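import Pool.Agent.Q156.TL.L7
import Pool.Agent.Q156.TL.L9

/-!
Which primes matter for the number of the primes `F(a) + b`, `a` in an arbitrary set `S` of relative
density `exp (-λ)` (for instance `F(a) = a²`; `λ` may be as large as a multiple of `log log x`)?
If no prime `p ≤ y` divides a number `F(a) + c` with `a ∈ S`, then the number of the `a ∈ S` with
`F(a) + b` prime is asymptotically `#S / (V(y) log x)` for almost all `b ≡ c` modulo the product
`P(y)` of the primes up to `y`, as soon as `y ≥ λ^(1-δ)`. For `y ≤ λ^(1-δ)` with a fixed `δ > 0` this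
is false: there are sets without obstruction at the primes up to `y` for which a positive
proportion of the `b` gives no prime at all. So the threshold is `log y ∼ log λ`.

Method: second moment over the shifts with a sieve model (`Pool/Agent/Q156/AW`,
`Pool/Agent/Q156/MW`), a second second moment with the fundamental lemma and high moments of the
local factors of the differences (`Pool/Agent/Q156/SW`), a Hoelder inequality with exponent depending
on the accuracy (`Pool/Agent/Q156/TL/L1`), refinement of the residue classes between `y` and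
`C (1 + λ)` (`L5`, `L7`), sums over primes (`L4`), and for the sharpness one residue class modulo the
product of the primes up to `λ / 2` (`L8`, `L9`).
-/

set_option autoImplicit false

namespace Pool.Agent.Results.MP_7169d5_nt.ThresholdLaw

open Finset
open scoped Polynomial

/-- the number of the `a ∈ S` for which `|F(a) + b|` is a prime -/
noncomputable def primes (F : ℤ[X]) (S : Finset ℤ) (b : ℤ) : ℕ :=
  (S.filter (fun a => (F.eval a + b).natAbs.Prime)).card

/-- the product of the primes `p ≤ y` -/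
def P (y : ℕ) : ℕ := ∏ p ∈ (Icc 1 y).filter Nat.Prime, p

/-- the product of the `1 - 1/p` over the primes `p ≤ y` -/
noncomputable def V (y : ℕ) : ℝ := ∏ p ∈ (Icc 1 y).filter Nat.Prime, (1 - 1 / (p : ℝ))

/-- no prime `p ≤ y` divides a number `F(a) + c` with `a ∈ S` -/
def Free (F : ℤ[X]) (S : Finset ℤ) (c : ℤ) (y : ℕ) : Prop :=
  ∀ a ∈ S, ∀ p : ℕ, p.Prime → p ≤ y → ¬ (p : ℤ) ∣ F.eval a + c

open Classical in
/-- the number of the integers `t` in `[1, T]` with the property `R` -/
noncomputable def count (T : ℕ) (R : ℕ → Prop) : ℕ := ((Icc 1 T).filter R).card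

theorem count_eq (T : ℕ) (R : ℕ → Prop) [DecidablePred R] : count T R = ((Icc 1 T).filter R).card := by
  unfold count
  congr

/-- `F` is an integer polynomial of degree `d ≥ 2`, for instance `X²` or `X² + 1`.
(1) For all `ε > 0` there are `δ > 0` and `Y` such that for all `K` and all large `x`: for all
`0 ≤ lam ≤ K log log x` and all `Y ≤ y ≤ K log log x` with `y ≥ lam^(1-δ)`, ALL sets `S` of integers
in a window `(u, v]` of length at most `#S exp lam` on which `8 |F| ≤ x`, with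
`#S ≥ x^(1/d) / (log x)^K`, all `c` in `[x/3, x/2]` such that no prime `p ≤ y` divides a number
`F(a) + c` with `a ∈ S`, and all `T` with `x / (log x)^K ≤ T P(y) ≤ x / 8`: for all but `ε T` of the
integers `t` in `[1, T]` the number of the `a ∈ S` with `F(a) + (c + P(y) t)` prime differs from
`#S / (V(y) log x)` by at most `ε` times this number.
(2) The exponent `1` of `lam` is the true one: for all `0 < δ < 1` there are `η > 0` and `Λ` such that
for all large `x`, all `Λ ≤ lam ≤ log log x`, all `y ≤ lam^(1-δ)`, all `v ≥ 2 log x` with `8 |F| ≤ x` on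
`(0, v]`, all `c ≥ x/3` such that no prime `p ≤ y` divides all the `F(a) + c`, and all `T ≥ log x` there
is a set `S` of at least `v exp (-lam)` integers in `(0, v]` such that no prime `p ≤ y` divides a
number `F(a) + c` with `a ∈ S`, but `F(a) + (c + P(y) t)` is composite for ALL `a ∈ S`, for at least
`η T` of the integers `t` in `[1, T]`. -/
theorem result (d : ℕ) (hd : 2 ≤ d) (F : ℤ[X]) (hF : F.natDegree = d) :
    (∀ ε : ℝ, 0 < ε → ∃ (δ : ℝ) (Y : ℕ), 0 < δ ∧ ∀ K : ℕ, ∃ X₀ : ℕ, ∀ x y T : ℕ, ∀ lam : ℝ,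
      X₀ ≤ x → 0 ≤ lam → lam ≤ K * Real.log (Real.log x) →
      Y ≤ y → lam ^ (1 - δ) ≤ y → (y : ℝ) ≤ K * Real.log (Real.log x) →
      ∀ (S : Finset ℤ) (u v c : ℤ), S ⊆ Ioc u v → (v : ℝ) - u ≤ #S * Real.exp lam →
      (x : ℝ) ^ (1 / (d : ℝ)) ≤ #S * Real.log x ^ K → (∀ q ∈ Ioc u v, 8 * |F.eval q| ≤ x) →
      (x : ℤ) ≤ 3 * c → 2 * c ≤ x → Free F S c y →
      8 * (T * P y) ≤ x → (x : ℝ) ≤ T * P y * Real.log x ^ K →
      (count T (fun t => ¬ |(primes F S (c + P y * t) : ℝ) - #S / (V y * Real.log x)| ≤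
        ε * (#S / (V y * Real.log x))) : ℝ) ≤ ε * T) ∧
    (∀ δ : ℝ, 0 < δ → δ < 1 → ∃ (η Λ : ℝ) (X₀ : ℕ), 0 < η ∧ ∀ x y T : ℕ, ∀ lam : ℝ,
      X₀ ≤ x → Λ ≤ lam → lam ≤ Real.log (Real.log x) → (y : ℝ) ≤ lam ^ (1 - δ) →
      ∀ v c : ℤ, 2 * Real.log x ≤ v → (∀ q ∈ Ioc 0 v, 8 * |F.eval q| ≤ x) → (x : ℤ) ≤ 3 * c →
      (∀ p : ℕ, p.Prime → p ≤ y → ∃ a : ℤ, ¬ (p : ℤ) ∣ F.eval a + c) → Real.log x ≤ T →
      ∃ S ⊆ Ioc 0 v, (v : ℝ) ≤ #S * Real.exp lam ∧ Free F S c y ∧
        η * T ≤ count T (fun t => primes F S (c + P y * t) = 0)) := by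
  classical
  obtain ⟨k, rfl⟩ : ∃ k, d = k + 1 := ⟨d - 1, by omega⟩
  refine ⟨fun ε hε => ?_, fun δ hδ hδ1 => ?_⟩
  · obtain ⟨δ, Y, hδ0, _, _, h⟩ := Pool.Agent.Q156.TL.upper k (by omega) F hF ε hε
    refine ⟨δ, Y, hδ0, fun K => ?_⟩
    obtain ⟨X0, h⟩ := h K
    refine ⟨X0, fun x y T lam hx hlam0 hlamK hyY hly hyK S u v c hS hvl hxS hFx hc1 hc2 hfree hTx hxT => ?_⟩
    have h1 := h x hx lam y hlam0 hlamK hyY hly hyK S u v c T hS (by
      unfold Pool.Agent.TH204.WR.rt
      push_cast at hxS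
      exact hxS) hvl hFx hc1 hc2 hTx hxT hfree
    refine le_of_eq_of_le ?_ h1
    exact congrArg Nat.cast (count_eq T _)
  · obtain ⟨η, Λ, X0, hη0, _, h⟩ := Pool.Agent.Q156.TL.lower δ hδ hδ1
    refine ⟨η, Λ, X0, hη0, fun x y T lam hx hlam hlx hy v c hv hFv hxc hobs hT => ?_⟩
    obtain ⟨S, h1, h2, h3, h4⟩ := h x hx F lam y hlam hlx hy v c T hv hFv hxc hT hobs
    refine ⟨S, h1, h2, h3, le_of_le_of_eq h4 ?_⟩
    exact congrArg Nat.cast (count_eq T _).symm

end Pool.Agent.Results.MP_7169d5_nt.ThresholdLaw
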