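import Pool.Agent.Q176.BU.MCD
import Pool.Agent.Q223.BU.KL2
import Pool.Agent.Q261.BU.SER
import Pool.Agent.Q195.BU.SPC
import Pool.Agent.Q149.BU.UPE
import Pool.Agent.Q137.BU.CNX
import Pool.Agent.Q184.ME.EVT
import Pool.Agent.Q26.ME.DV

/-!
# The uniform Bateman–Horn law at every level of information

The definitions are in `Pool/Agent/Q120/BU/Stm.lean`. Model of level `Q`: each integer `n ≥ 3` coprime to `Q` is in the set independently
with probability `min (1 / 2) ((Q / φ(Q)) / log n)`, and no other `n`. We consider ANY random set `A` of integers coprime to `Q` for which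
the relative entropy of the law of `A ∩ [0, x)` with respect to the model is at most `x ^ (δ + o(1))` (class `δ`). For `k` distinct nonconstant
integer polynomials of degree at most `g` with coefficients at most `N ^ C` in absolute value:

* the number of the `n < x` with all `F_i(n) ∈ A` is the expectation in the model up to `N ^ (θ + o(1))`, uniformly in `x ≤ N` and in ALL systems `F`,
  almost surely for every `A` of class `δ`, if and only if `θ ≥ (1 + min 1 ((g + C) δ)) / 2`;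
* the Bateman–Horn asymptotics with the singular series of level `Q` hold uniformly in ALL systems with coefficients in `[0, N ^ C]`,
  almost surely for every `A` of class `δ`, if and only if `(g + C) δ < 1`.

Lemmas by helper176, helper223, helper261, helper195, helper149, helper137 (and helper184, helper285, helper224).
-/

set_option autoImplicit false

namespace Pool.Agent.Results.MP_7169d5_nt.UniformBatemanHorn

open Finset MeasureTheory Filter Pool.Agent.Q120.BU Polynomial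
open scoped Topology

theorem J1 : J_UPE := Pool.Agent.Q149.BU.t_UPE (Pool.Agent.Q184.ME.t_EVT Pool.Agent.Q26.ME.t_DV) (Pool.Agent.Q149.BU.t_UNI Pool.Agent.Q176.BU.t_MCD)

theorem J2 : J_SER := Pool.Agent.Q261.BU.t_SER

theorem J3 : J_CNX := Pool.Agent.Q137.BU.t_CNX Pool.Agent.Q176.BU.t_MCD Pool.Agent.Q223.BU.t_KL2 Pool.Agent.Q195.BU.t_SPC

theorem J4 : J_SPC := Pool.Agent.Q195.BU.t_SPC

/-- powers of logarithms are small -/
theorem log_small (k : ℕ) (a b D : ℝ) (hab : a < b) (hD : 0 < D) : ∀ᶠ M : ℕ in atTop,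
    D * (M : ℝ) ^ a < (M : ℝ) ^ b / Real.log M ^ (k + 1) := by
  have h1 := (isLittleO_log_rpow_rpow_atTop ((k : ℝ) + 1) (sub_pos.2 hab)).comp_tendsto (tendsto_natCast_atTop_atTop (R := ℝ))
  have h2 := h1.bound (show (0 : ℝ) < 1 / (2 * D) by positivity)
  filter_upwards [h2, eventually_ge_atTop 3] with M hM h3
  have hM0 : (0 : ℝ) < M := by exact_mod_cast (by omega : 0 < M)
  have hl : 0 < Real.log M := Real.log_pos (by exact_mod_cast (by omega : 1 < M))
  simp only [Function.comp_apply] at hM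
  have e : Real.log (M : ℝ) ^ ((k : ℝ) + 1) = Real.log (M : ℝ) ^ (k + 1) := by
    rw [show (k : ℝ) + 1 = ((k + 1 : ℕ) : ℝ) by push_cast; ring, Real.rpow_natCast]
  rw [e, Real.norm_of_nonneg (by positivity), Real.norm_of_nonneg (by positivity)] at hM
  rw [lt_div_iff₀ (by positivity)]
  have h4 : (M : ℝ) ^ b = (M : ℝ) ^ a * (M : ℝ) ^ (b - a) := by
    rw [← Real.rpow_add hM0]; congr 1; ring
  have h5 : (0 : ℝ) < (M : ℝ) ^ a := Real.rpow_pos_of_pos hM0 _
  have h6 : (0 : ℝ) < (M : ℝ) ^ (b - a) := Real.rpow_pos_of_pos hM0 _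
  calc D * (M : ℝ) ^ a * Real.log M ^ (k + 1) ≤ D * (M : ℝ) ^ a * (1 / (2 * D) * (M : ℝ) ^ (b - a)) :=
        mul_le_mul_of_nonneg_left hM (by positivity)
    _ = (M : ℝ) ^ a * (M : ℝ) ^ (b - a) / 2 := by field_simp
    _ < (M : ℝ) ^ a * (M : ℝ) ^ (b - a) := by
        have : 0 < (M : ℝ) ^ a * (M : ℝ) ^ (b - a) := by positivity
        linarith
    _ = _ := h4.symm

/-- the main term of the special system is small -/
theorem LI_spec (Q k g : ℕ) (C : ℝ) (hC : 0 < C) : ∀ᶠ M : ℕ in atTop, ∀ x : ℕ, x ≤ 2 * M →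
    0 ≤ LI (spec Q k g C M) x ∧ LI (spec Q k g C M) x ≤ 2 * (2 / C) ^ k * (M / Real.log M ^ k) := by
  have h1 : ∀ᶠ M : ℕ in atTop, (2 : ℝ) ≤ (M : ℝ) ^ (C / 2) :=
    ((tendsto_rpow_atTop (by positivity : 0 < C / 2)).comp (tendsto_natCast_atTop_atTop (R := ℝ))).eventually_ge_atTop 2
  filter_upwards [h1, eventually_ge_atTop 3] with M hM h3 x hx
  have hM0 : (0 : ℝ) < M := by exact_mod_cast (by omega : 0 < M)
  have hl : 0 < Real.log M := Real.log_pos (by exact_mod_cast (by omega : 1 < M))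
  have ha : (M : ℝ) ^ (C / 2) ≤ (⌊(M : ℝ) ^ C⌋₊ : ℝ) := by
    have h4 : (M : ℝ) ^ C = (M : ℝ) ^ (C / 2) * (M : ℝ) ^ (C / 2) := by
      rw [← Real.rpow_add hM0]; congr 1; ring
    have h5 := Nat.lt_floor_add_one ((M : ℝ) ^ C)
    nlinarith
  have hlog : ∀ (i : Fin k) (n : ℕ), 1 ≤ n → C / 2 * Real.log M ≤ Real.log (va (spec Q k g C M i) n) := by
    intro i n hn
    rw [Pool.Agent.Q195.BU.SPC.va_spec]
    have h6 : ⌊(M : ℝ) ^ C⌋₊ ≤ ⌊(M : ℝ) ^ C⌋₊ * n ^ g + ((i : ℕ) * Q + 1) :=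
      (Nat.le_mul_of_pos_right _ (Nat.pow_pos hn)).trans (Nat.le_add_right _ _)
    have h7 : (M : ℝ) ^ (C / 2) ≤ ((⌊(M : ℝ) ^ C⌋₊ * n ^ g + ((i : ℕ) * Q + 1) : ℕ) : ℝ) :=
      ha.trans (by exact_mod_cast h6)
    calc C / 2 * Real.log M = Real.log ((M : ℝ) ^ (C / 2)) := (Real.log_rpow hM0 _).symm
      _ ≤ _ := Real.log_le_log (Real.rpow_pos_of_pos hM0 _) h7
  have hpos : 0 < C / 2 * Real.log M := by positivity
  have hterm : ∀ n ∈ Ico 2 x, 0 ≤ ∏ i, 1 / Real.log (va (spec Q k g C M i) n) ∧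
      ∏ i, 1 / Real.log (va (spec Q k g C M i) n) ≤ (1 / (C / 2 * Real.log M)) ^ k := by
    intro n hn
    have hn1 : 1 ≤ n := by
      have := (mem_Ico.1 hn).1
      omega
    refine ⟨prod_nonneg fun i _ => one_div_nonneg.2 (hpos.le.trans (hlog i n hn1)), ?_⟩
    calc ∏ i : Fin k, 1 / Real.log (va (spec Q k g C M i) n) ≤ ∏ _i : Fin k, 1 / (C / 2 * Real.log M) :=
          prod_le_prod (fun i _ => one_div_nonneg.2 (hpos.le.trans (hlog i n hn1)))
            fun i _ => one_div_le_one_div_of_le hpos (hlog i n hn1)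
      _ = _ := by rw [prod_const, card_univ, Fintype.card_fin]
  refine ⟨sum_nonneg fun n hn => (hterm n hn).1, ?_⟩
  have h8 : LI (spec Q k g C M) x ≤ (Ico 2 x).card • (1 / (C / 2 * Real.log M)) ^ k :=
    sum_le_card_nsmul _ _ _ fun n hn => (hterm n hn).2
  rw [Nat.card_Ico, nsmul_eq_mul] at h8
  have h9 : ((x - 2 : ℕ) : ℝ) ≤ 2 * M := by exact_mod_cast (Nat.sub_le x 2).trans hx
  calc LI (spec Q k g C M) x ≤ ((x - 2 : ℕ) : ℝ) * (1 / (C / 2 * Real.log M)) ^ k := h8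
    _ ≤ 2 * M * (1 / (C / 2 * Real.log M)) ^ k := mul_le_mul_of_nonneg_right h9 (by positivity)
    _ = 2 * (2 / C) ^ k * (M / Real.log M ^ k) := by
        rw [one_div, mul_inv, inv_div, mul_pow, inv_pow]; ring

/-- **Main result.** -/
theorem result (Q k g : ℕ) (hQ : 1 ≤ Q) (hk : 1 ≤ k) (hg : 1 ≤ g) (C δ : ℝ) (hC : 0 < C) (hδ : 0 ≤ δ) :
    (∀ θ : ℝ, (∀ (Ω : Type) [MeasurableSpace Ω] (μ : Measure Ω) [IsProbabilityMeasure μ] (A : Ω → Set ℕ),
        UCls Q δ μ A → ∀ᵐ ω ∂μ, Err Q k g C θ (A ω)) ↔ (1 + min 1 ((g + C) * δ)) / 2 ≤ θ) ∧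
    ((∀ (Ω : Type) [MeasurableSpace Ω] (μ : Measure Ω) [IsProbabilityMeasure μ] (A : Ω → Set ℕ),
        UCls Q δ μ A → ∀ᵐ ω ∂μ, BHU Q k g C (A ω)) ↔ (g + C) * δ < 1) := by
  refine ⟨fun θ => ⟨fun h => ?_, fun h Ω _ μ _ A hA => J1 Q k g C δ θ hQ hk hg hC hδ h Ω μ A hA⟩, fun h => ?_, fun h Ω _ μ _ A hA => ?_⟩
  · by_contra hcon
    rw [not_le] at hcon
    obtain ⟨Ω, mΩ, μ, hμ, A, hA, hA1, -⟩ := J3 Q k g C δ hQ hk hg hC hδ
    have h1 := h Ω μ A hA
    obtain ⟨ω, hω1, hω2⟩ := (hA1.and h1).exists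
    set θ₀ : ℝ := (1 + min 1 ((g + C) * δ)) / 2 with hθ₀
    obtain ⟨c, hc, hspc⟩ := J4 Q k g C hQ hk hg hC
    have h2 := hω2 ((θ₀ - θ) / 2) (by linarith)
    have h3 : ∀ᶠ M : ℕ in atTop, ∀ F : Fin k → ℤ[X], Sys g C (2 * M) F → ∀ x : ℕ, x ≤ 2 * M →
        |(hit (A ω) F x : ℝ) - ex (lv Q) F x| ≤ ((2 * M : ℕ) : ℝ) ^ (θ + (θ₀ - θ) / 2) :=
      (tendsto_id.const_mul_atTop' (by norm_num : 0 < 2)).eventually h2
    have h4 := log_small k (θ + (θ₀ - θ) / 2) θ₀ (2 * 2 ^ (θ + (θ₀ - θ) / 2)) (by linarith) (by positivity)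
    obtain ⟨M, hM, h5, h6, h7, h8⟩ := (hω1.and_eventually (h3.and (h4.and (hspc.and (eventually_ge_atTop 1))))).exists
    have hS : Sys g C (2 * M) (spec Q k g C M) := Pool.Agent.Q149.BU.sys_mono hC.le (by omega) h7.1
    have h9 := abs_le.1 (h5 _ hS (2 * M) le_rfl)
    have h10 := abs_le.1 (h5 _ hS M (by omega))
    have h11 : (((2 * M : ℕ) : ℝ)) ^ (θ + (θ₀ - θ) / 2) = 2 ^ (θ + (θ₀ - θ) / 2) * (M : ℝ) ^ (θ + (θ₀ - θ) / 2) := by
      rw [Nat.cast_mul, Nat.cast_ofNat, Real.mul_rpow (by norm_num) (Nat.cast_nonneg M)]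
    rw [h11] at h9 h10
    linarith [h9.1, h9.2, h10.1, h10.2]
  · by_contra hcon
    rw [not_lt] at hcon
    obtain ⟨Ω, mΩ, μ, hμ, A, hA, -, hA2⟩ := J3 Q k g C δ hQ hk hg hC hδ
    have h1 := h Ω μ A hA
    obtain ⟨ω, hω1, hω2⟩ := ((hA2 hcon).and h1).exists
    obtain ⟨c, hc, hspc⟩ := J4 Q k g C hQ hk hg hC
    set B : ℝ := 2 * (2 / C) ^ k with hB
    have hB0 : 0 < B := by positivity
    set ε : ℝ := c / (8 * B) with hε
    have hε0 : 0 < ε := by positivity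
    have h2 := hω2 ε hε0
    obtain ⟨c', hc', h3⟩ := J2 Q k g C hQ hk hg hC ε hε0
    have h23 := h2.and h3
    have h4 : ∀ᶠ M : ℕ in atTop, (∀ F : Fin k → ℤ[X], Sys g C (2 * M) F → (∀ i j, 0 ≤ (F i).coeff j) →
          |(hit (A ω) F (2 * M) : ℝ) - SS Q F * LI F (2 * M)| ≤ ε * LI F (2 * M)) ∧
        (∀ F : Fin k → ℤ[X], Sys g C (2 * M) F → (∀ i j, 0 ≤ (F i).coeff j) →
          |ex (lv Q) F (2 * M) - SS Q F * LI F (2 * M)| ≤ ε * LI F (2 * M) ∧
          c' * (((2 * M : ℕ) : ℝ) / Real.log ((2 * M : ℕ) : ℝ) ^ k) ≤ LI F (2 * M)) :=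
      (tendsto_id.const_mul_atTop' (by norm_num : 0 < 2)).eventually h23
    obtain ⟨M, hM, h5, h6, h7, h8, h9⟩ := (hω1.and_eventually (h23.and (h4.and (hspc.and ((LI_spec Q k g C hC).and (eventually_ge_atTop 3)))))).exists
    have hM0 : (0 : ℝ) < M := by exact_mod_cast (by omega : 0 < M)
    have hl : 0 < Real.log M := Real.log_pos (by exact_mod_cast (by omega : 1 < M))
    have hS : Sys g C (2 * M) (spec Q k g C M) := Pool.Agent.Q149.BU.sys_mono hC.le (by omega) h7.1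
    obtain ⟨g1, g2, g3, g4, -⟩ := h7
    have a1 := abs_le.1 (h5.1 _ g1 g2)
    have a2 := abs_le.1 (h5.2 _ g1 g2).1
    have a3 := abs_le.1 (h6.1 _ hS g2)
    have a4 := abs_le.1 (h6.2 _ hS g2).1
    have b1 := h8 M (by omega)
    have b2 := h8 (2 * M) le_rfl
    have e1 : ε * LI (spec Q k g C M) M ≤ c / 8 * (M / Real.log M ^ k) := by
      calc ε * LI (spec Q k g C M) M ≤ ε * (B * (M / Real.log M ^ k)) := mul_le_mul_of_nonneg_left b1.2 hε0.le
        _ = c / 8 * (M / Real.log M ^ k) := by rw [hε]; field_simp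
    have e2 : ε * LI (spec Q k g C M) (2 * M) ≤ c / 8 * (M / Real.log M ^ k) := by
      calc ε * LI (spec Q k g C M) (2 * M) ≤ ε * (B * (M / Real.log M ^ k)) := mul_le_mul_of_nonneg_left b2.2 hε0.le
        _ = c / 8 * (M / Real.log M ^ k) := by rw [hε]; field_simp
    have hM' : (hit (A ω) (spec Q k g C M) (2 * M) : ℝ) = hit (A ω) (spec Q k g C M) M := by exact_mod_cast hM
    have hp : 0 < c * (M / Real.log M ^ k) := by positivity
    linarith [a1.1, a1.2, a2.1, a2.2, a3.1, a3.2, a4.1, a4.2]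
  · have hmin : min 1 (((g : ℝ) + C) * δ) = (g + C) * δ := min_eq_right h.le
    have h1 := J1 Q k g C δ ((1 + (g + C) * δ) / 2) hQ hk hg hC hδ (by rw [hmin]) Ω μ A hA
    filter_upwards [h1] with ω hω ε hε
    obtain ⟨c, hc, h2⟩ := J2 Q k g C hQ hk hg hC (ε / 2) (by positivity)
    have h3 := hω ((1 - (g + C) * δ) / 4) (by linarith)
    have h4 := log_small k ((1 + (g + C) * δ) / 2 + (1 - (g + C) * δ) / 4) 1 (2 / (ε * c)) (by linarith) (by positivity)
    filter_upwards [h2, h3, h4, eventually_ge_atTop 3] with N g1 g2 g3 g4 F hF hF0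
    have hN0 : (0 : ℝ) < N := by exact_mod_cast (by omega : 0 < N)
    have hl : 1 ≤ Real.log N := by
      have h5 : Real.exp 1 ≤ N := Real.exp_one_lt_d9.le.trans (by
        have : (3 : ℝ) ≤ N := by exact_mod_cast g4
        linarith)
      calc (1 : ℝ) = Real.log (Real.exp 1) := (Real.log_exp 1).symm
        _ ≤ _ := Real.log_le_log (Real.exp_pos 1) h5
    obtain ⟨a1, a2⟩ := g1 F hF hF0
    have a3 := g2 F hF N le_rfl
    have a4 : (N : ℝ) ^ ((1 + (g + C) * δ) / 2 + (1 - (g + C) * δ) / 4) ≤ ε / 2 * LI F N := by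
      have b1 : (N : ℝ) ^ (1 : ℝ) / Real.log N ^ (k + 1) ≤ N / Real.log N ^ k := by
        rw [Real.rpow_one]
        exact div_le_div_of_nonneg_left hN0.le (by positivity) (pow_le_pow_right₀ hl (by omega))
      have b2 := g3.le.trans b1
      have b3 : (N : ℝ) ^ ((1 + (g + C) * δ) / 2 + (1 - (g + C) * δ) / 4) ≤ ε * c / 2 * (N / Real.log N ^ k) := by
        have := mul_le_mul_of_nonneg_left b2 (by positivity : 0 ≤ ε * c / 2)
        calc _ = ε * c / 2 * (2 / (ε * c) * (N : ℝ) ^ ((1 + (g + C) * δ) / 2 + (1 - (g + C) * δ) / 4)) := by field_simp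
          _ ≤ _ := this
      calc _ ≤ ε * c / 2 * (N / Real.log N ^ k) := b3
        _ = ε / 2 * (c * (N / Real.log N ^ k)) := by ring
        _ ≤ _ := mul_le_mul_of_nonneg_left a2 (by positivity)
    calc |(hit (A ω) F N : ℝ) - SS Q F * LI F N|
        = |((hit (A ω) F N : ℝ) - ex (lv Q) F N) + (ex (lv Q) F N - SS Q F * LI F N)| := by congr 1; ring
      _ ≤ |(hit (A ω) F N : ℝ) - ex (lv Q) F N| + |ex (lv Q) F N - SS Q F * LI F N| := abs_add_le _ _
      _ ≤ ε / 2 * LI F N + ε / 2 * LI F N := add_le_add (a3.trans a4) a1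
      _ = ε * LI F N := by ring

end Pool.Agent.Results.MP_7169d5_nt.UniformBatemanHorn
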